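import Pool.Agent.Lib.MP_00b752_lc.MedLink

namespace Pool.Agent.Results.MP_00b752_lc.MedianMatching

open Pool.Agent.Lib.MP_00b752_lc

/-- For any odd number of strongly stable matchings of an instance of the stable fixtures problem
with ties there is a strongly stable matching that gives every agent its set of partners from one
of the given matchings in which the rank of its worst partner is the median. -/
theorem result (I : Inst) (h : WF I) (k : ℕ) (Ms : Fin (2 * k + 1) → Finset (Sym2 ℕ))
    (hM : ∀ i, StronglyStable I (Ms i)) :
    ∃ M, StronglyStable I M ∧ ∀ a < I.length, ∃ i, partners I M a = partners I (Ms i) a ∧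
      k + 1 ≤ (Finset.univ.filter fun j => (partners I (Ms j) a).sup (rank I a) ≤
        (partners I (Ms i) a).sup (rank I a)).card ∧
      k + 1 ≤ (Finset.univ.filter fun j => (partners I (Ms i) a).sup (rank I a) ≤
        (partners I (Ms j) a).sup (rank I a)).card :=
  Med.median_matching I h k Ms hM

end Pool.Agent.Results.MP_00b752_lc.MedianMatching
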