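import Pool.Agent.Lib.MP_00b752_lc.Link

namespace Pool.Agent.Results.MP_00b752_lc.StrongSFTinP

open Pool.Agent.Lib.MP_00b752_lc

/-- There is a polynomial-time (multi-stack Turing machine, binary encodings) function that, on
every well-formed instance of the stable fixtures problem with ties, either returns a strongly
stable matching or correctly reports that none exists. -/
theorem result : ∃ f : Inst → Bool × List (ℕ × ℕ), N68a2faeb.IsPolyTime f ∧ ∀ I, WF I →
    ((f I).1 = true → StronglyStable I ((f I).2.map fun p => s(p.1, p.2)).toFinset) ∧
    ((f I).1 = false → ∀ M, ¬ StronglyStable I M) := main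

end Pool.Agent.Results.MP_00b752_lc.StrongSFTinP
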